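import Mathlib

namespace Pool.Agent.H52Upg

/-- Abstract transitivity: words act; the relation `R'` refines the relation `R`. -/
theorem trans_ext {St : Type}
    (act : List Bool → St → St)
    (act_nil : ∀ s : St, act [] s = s)
    (act_app : ∀ u v s, act (u ++ v) s = act v (act u s))
    (R R' : St → St → Prop) (hR : Equivalence R) (hR' : Equivalence R')
    (hact : ∀ w s t, R s t → R (act w s) (act w t))
    (hact' : ∀ w s t, R' s t → R' (act w s) (act w t))
    (hinj : ∀ w s t, R s t → R' (act w s) (act w t) → R' s t)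
    (pigeon : ∀ g : ℕ → St, ∃ a b, a < b ∧ R' (g a) (g b))
    (htr : ∀ s t, ∃ w, R (act w s) t)
    (c : St)
    (hloc : ∀ s t, R s c → R t c → ∃ w, R' (act w s) t) :
    ∀ s t, ∃ w, R' (act w s) t := by
  intro s t
  -- go from `t` to the fibre over `c`, and back
  obtain ⟨w3, h3⟩ := htr t c
  obtain ⟨w2, h2⟩ := htr c t
  let G : St → St := act (w3 ++ w2)
  have hGw : ∀ n : ℕ, ∃ w, ∀ s, act w s = G^[n] s := by
    intro n
    induction n with
    | zero => exact ⟨[], fun s => act_nil s⟩
    | succ n ih =>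
      obtain ⟨w, hw⟩ := ih
      refine ⟨(w3 ++ w2) ++ w, fun s => ?_⟩
      rw [act_app, hw, Function.iterate_succ_apply]
  have hg : R (G t) t := by
    show R (act (w3 ++ w2) t) t
    rw [act_app]
    exact hR.trans (hact w2 _ _ h3) h2
  have hpf : ∀ n, R (G^[n] t) t := by
    intro n
    induction n with
    | zero => exact hR.refl _
    | succ n ih =>
      rw [Function.iterate_succ_apply']
      exact hR.trans (hact _ _ _ ih) hg
  obtain ⟨a, b, hab, heq⟩ := pigeon (fun n => G^[n] t)
  obtain ⟨d, rfl⟩ : ∃ d, b = a + (d + 1) := ⟨b - a - 1, by omega⟩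
  have hret : R' t (G^[d+1] t) := by
    obtain ⟨w, hw⟩ := hGw a
    have h1 : R' (act w t) (act w (G^[d+1] t)) := by
      rw [hw, hw, ← Function.iterate_add_apply]; exact heq
    exact hinj w _ _ (hR.symm (hpf _)) h1
  have hpre : R' (act w2 (act w3 (G^[d] t))) t := by
    rw [← act_app]
    have : G (G^[d] t) = G^[d+1] t := (Function.iterate_succ_apply' G d t).symm
    show R' (G (G^[d] t)) t
    rw [this]; exact hR'.symm hret
  have hpref : R (act w3 (G^[d] t)) c := hR.trans (hact w3 _ _ (hpf d)) h3
  obtain ⟨w1, h1⟩ := htr s c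
  obtain ⟨w4, h4⟩ := hloc (act w1 s) (act w3 (G^[d] t)) h1 hpref
  refine ⟨w1 ++ w4 ++ w2, ?_⟩
  rw [act_app, act_app]
  exact hR'.trans (hact' w2 _ _ h4) hpre

/-- Universal traversal word for finitely many actions and states. -/
theorem traversal {ι St : Type} [Finite ι]
    (act : ι → List Bool → St → St)
    (act_app : ∀ i u v s, act i (u ++ v) s = act i v (act i u s))
    (init : ι → St) (target : ι → St → Prop)
    (htr : ∀ i s, ∃ w, target i (act i w s)) :
    ∃ w : List Bool, ∀ i, ∃ u, u <+: w ∧ target i (act i u (init i)) := by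
  have key : ∀ F : Set ι, F.Finite → ∃ w : List Bool, ∀ i ∈ F, ∃ u, u <+: w ∧ target i (act i u (init i)) := by
    intro F hF
    induction F, hF using Set.Finite.induction_on with
    | empty => exact ⟨[], by simp⟩
    | @insert a s _ _ ih =>
      obtain ⟨w, hw⟩ := ih
      obtain ⟨v, hv⟩ := htr a (act a w (init a))
      refine ⟨w ++ v, ?_⟩
      intro i hi
      rcases hi with rfl | hi
      · exact ⟨w ++ v, List.prefix_refl _, by rw [act_app]; exact hv⟩
      · obtain ⟨u, hu, ht⟩ := hw i hi
        exact ⟨u, hu.trans (List.prefix_append _ _), ht⟩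
  obtain ⟨w, hw⟩ := key Set.univ Set.finite_univ
  exact ⟨w, fun i => hw i (Set.mem_univ _)⟩

end Pool.Agent.H52Upg
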