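import Mathlib
import Pool.Agent.H52Upg.Abs

namespace Pool.Agent.H52Upg

abbrev Sym := ZMod 5

def rotp (d b : Sym) : Bool :=
  (d == 0 && b == 2) || (d == 0 && b == 3) || (d == 2 && b == 1) || (d == 4 && b == 1)

/-- local rule: `l` left, `d` below-left, `b` below, `z` self. -/
def Phi (l d b z : Sym) : Sym :=
  if b = 0 then (if l = 1 then z + 2 else -z) else if rotp d b = true then z + 1 else z

theorem Phi_inj {l d b z z' : Sym} (h : Phi l d b z = Phi l d b z') : z = z' := by
  unfold Phi at h
  split_ifs at h <;> simpa using h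

theorem Phi_four (l d z : Sym) : Phi l d 4 z = z := by
  revert l d z; decide

theorem Phi_four_one (l z : Sym) : Phi l 4 1 z = z + 1 := by
  revert l z; decide

/-- wall values, rows indexed from 0 (the row just above the control row) -/
def wall (k : ℕ) (w : Sym) (j : ℕ) : Sym := if j < k then 4 else w

/-- left neighbour value of the window cell `(a,j)` -/
def lft (k : ℕ) (w : Sym) (r : ℕ → ℕ → Sym) : ℕ → ℕ → Sym
  | 0, j => wall k w j
  | a + 1, j => r a j

def rstep (k : ℕ) (w : Sym) (ro : ℕ → Bool) (r : ℕ → ℕ → Sym) : ℕ → ℕ → Sym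
  | a, 0 => r a 0 + (if ro a = true then 1 else 0)
  | a, j + 1 => Phi (lft k w r a (j + 1)) (lft k w r a j) (r a j) (r a (j + 1))

def shl (e : Bool) (X : ℕ → Bool) : ℕ → Bool
  | 0 => e
  | a + 1 => X a

abbrev St := (ℕ → Bool) × (ℕ → ℕ → Sym)

def ro (e : Bool) (X : ℕ → Bool) (a : ℕ) : Bool := !(shl e X a) && X a

def unit (k : ℕ) (w : Sym) (e : Bool) (s : St) : St :=
  (fun a => xor (s.1 a) (shl e s.1 a),
    rstep k w (fun _ => false) (rstep k w (ro e s.1) s.2))

def gen (k : ℕ) (w : Sym) : Bool → St → St
  | false, s => unit k w false s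
  | true, s => unit k w false (unit k w true s)

def act (k : ℕ) (w : Sym) (l : List Bool) (s : St) : St := l.foldl (fun s b => gen k w b s) s

theorem act_nil (k w) (s : St) : act k w [] s = s := rfl
theorem act_cons (k w b l s) : act k w (b :: l) s = act k w l (gen k w b s) := rfl
theorem act_app (k w) (u v : List Bool) (s : St) :
    act k w (u ++ v) s = act k w v (act k w u s) := by
  simp [act, List.foldl_append]

/-- agreement of row parts below the profile `h` -/
def AgR (h : ℕ → ℕ) (r r' : ℕ → ℕ → Sym) : Prop := ∀ i j, j < h i → r i j = r' i j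

def Ag (m : ℕ) (h : ℕ → ℕ) (s t : St) : Prop := (∀ i, i < m → s.1 i = t.1 i) ∧ AgR h s.2 t.2

theorem Ag_equiv (m h) : Equivalence (Ag m h) where
  refl s := ⟨fun _ _ => rfl, fun _ _ _ => rfl⟩
  symm := fun h => ⟨fun i hi => (h.1 i hi).symm, fun i j hj => (h.2 i j hj).symm⟩
  trans := fun h h' => ⟨fun i hi => (h.1 i hi).trans (h'.1 i hi),
    fun i j hj => (h.2 i j hj).trans (h'.2 i j hj)⟩

structure Adm (m : ℕ) (h : ℕ → ℕ) : Prop where
  anti : ∀ i, h (i + 1) ≤ h i
  pos : ∀ i, 0 < h i → i < m

theorem AgR_rstep {k w h ro ro' r r'} (hh : ∀ i, h (i + 1) ≤ h i)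
    (hro : ∀ i, 0 < h i → ro i = ro' i) (hr : AgR h r r') :
    AgR h (rstep k w ro r) (rstep k w ro' r') := by
  intro i j hj
  cases j with
  | zero => simp only [rstep]; rw [hr i 0 hj, hro i hj]
  | succ j =>
    simp only [rstep]
    rw [hr i j (by omega), hr i (j + 1) hj]
    cases i with
    | zero => rfl
    | succ i =>
      simp only [lft]
      have := hh i
      rw [hr i j (by omega), hr i (j + 1) (by omega)]

theorem shl_congr {m : ℕ} {e : Bool} {X Y : ℕ → Bool} (h : ∀ i, i < m → X i = Y i) :
    ∀ i, i ≤ m → shl e X i = shl e Y i := by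
  intro i hi
  cases i with
  | zero => rfl
  | succ i => exact h i (by omega)

theorem Ag_unit {k w m h e s t} (hA : Adm m h) (hs : Ag m h s t) :
    Ag m h (unit k w e s) (unit k w e t) := by
  constructor
  · intro i hi
    simp only [unit]
    rw [hs.1 i hi, shl_congr hs.1 i hi.le]
  · simp only [unit]
    refine AgR_rstep hA.anti (fun _ _ => rfl) (AgR_rstep hA.anti ?_ hs.2)
    intro i hi
    simp only [ro]
    have := hA.pos i hi
    rw [hs.1 i this, shl_congr hs.1 i this.le]

theorem Ag_gen {k w m h e s t} (hA : Adm m h) (hs : Ag m h s t) :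
    Ag m h (gen k w e s) (gen k w e t) := by
  cases e with
  | false => exact Ag_unit hA hs
  | true => exact Ag_unit hA (Ag_unit hA hs)

theorem Ag_act {k w m h} (hA : Adm m h) (l : List Bool) : ∀ s t, Ag m h s t →
    Ag m h (act k w l s) (act k w l t) := by
  induction l with
  | nil => intro s t h; exact h
  | cons b l ih => intro s t h; exact ih _ _ (Ag_gen hA h)

/-- adding a control bit -/
theorem unit_cancel_bit {k w m h e s t} (hs : Ag m h s t)
    (h' : Ag (m + 1) h (unit k w e s) (unit k w e t)) : Ag (m + 1) h s t := by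
  refine ⟨?_, hs.2⟩
  intro i hi
  rcases Nat.lt_succ_iff_lt_or_eq.mp hi with h1 | h1
  · exact hs.1 i h1
  · subst h1
    have := h'.1 i hi
    simp only [unit] at this
    rw [shl_congr hs.1 i le_rfl] at this
    revert this
    cases s.1 i <;> cases t.1 i <;> cases shl e t.1 i <;> simp

theorem AgR_update {h : ℕ → ℕ} {a : ℕ} {r r'} :
    AgR (Function.update h a (h a + 1)) r r' ↔ AgR h r r' ∧ r a (h a) = r' a (h a) := by
  constructor
  · intro H
    refine ⟨fun i j hj => H i j ?_, H a (h a) (by simp)⟩
    by_cases hia : i = a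
    · subst hia; simp; omega
    · simpa [Function.update, hia] using hj
  · rintro ⟨H1, H2⟩ i j hj
    by_cases hia : i = a
    · subst hia
      simp at hj
      rcases Nat.lt_or_eq_of_le hj with h1 | h1
      · exact H1 i j h1
      · subst h1; exact H2
    · exact H1 i j (by simpa [Function.update, hia] using hj)

theorem rstep_cancel {k w h a ro ro' r r'}
    (hlt : ∀ a', a = a' + 1 → h a < h a')
    (hro : ro a = ro' a) (hr : AgR h r r')
    (h' : AgR (Function.update h a (h a + 1)) (rstep k w ro r) (rstep k w ro' r')) :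
    AgR (Function.update h a (h a + 1)) r r' := by
  rw [AgR_update] at h' ⊢
  refine ⟨hr, ?_⟩
  have H := h'.2
  revert H
  generalize hj : h a = j
  cases j with
  | zero =>
    intro H
    simp only [rstep] at H
    rw [hro] at H
    simpa using H
  | succ j =>
    intro H
    simp only [rstep] at H
    rw [hr a j (by omega)] at H
    have e1 : lft k w r a (j + 1) = lft k w r' a (j + 1) := by
      cases a with
      | zero => rfl
      | succ a =>
        simp only [lft]
        have := hlt a rfl
        exact hr a (j + 1) (by omega)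
    have e2 : lft k w r a j = lft k w r' a j := by
      cases a with
      | zero => rfl
      | succ a =>
        simp only [lft]
        have := hlt a rfl
        exact hr a j (by omega)
    rw [e1, e2] at H
    exact Phi_inj H

theorem unit_cancel_cell {k w m h a e s t} (hA : Adm m h) (ham : a < m)
    (hlt : ∀ a', a = a' + 1 → h a < h a')
    (hs : Ag m h s t)
    (h' : Ag m (Function.update h a (h a + 1)) (unit k w e s) (unit k w e t)) :
    Ag m (Function.update h a (h a + 1)) s t := by
  refine ⟨hs.1, ?_⟩
  have hroe : ∀ i, i < m → ro e s.1 i = ro e t.1 i := by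
    intro i hi
    simp only [ro]
    rw [hs.1 i hi, shl_congr hs.1 i hi.le]
  refine rstep_cancel hlt (hroe a ham) hs.2 (rstep_cancel (ro := fun _ => false) (ro' := fun _ => false) hlt rfl
    (AgR_rstep hA.anti (fun i hi => hroe i (hA.pos i hi)) hs.2) h'.2)

theorem act_cancel_bit {k w m h} (hA : Adm m h) (l : List Bool) :
    ∀ s t, Ag m h s t → Ag (m + 1) h (act k w l s) (act k w l t) → Ag (m + 1) h s t := by
  induction l with
  | nil => intro s t _ h; exact h
  | cons b l ih =>
    intro s t hs h'
    have h2 := ih _ _ (Ag_gen hA hs) h'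
    cases b with
    | false => exact unit_cancel_bit hs h2
    | true => exact unit_cancel_bit hs (unit_cancel_bit (Ag_unit hA hs) h2)

theorem act_cancel_cell {k w m h a} (hA : Adm m h) (ham : a < m)
    (hlt : ∀ a', a = a' + 1 → h a < h a') (l : List Bool) :
    ∀ s t, Ag m h s t → Ag m (Function.update h a (h a + 1)) (act k w l s) (act k w l t) →
      Ag m (Function.update h a (h a + 1)) s t := by
  induction l with
  | nil => intro s t _ h; exact h
  | cons b l ih =>
    intro s t hs h'
    have h2 := ih _ _ (Ag_gen hA hs) h'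
    cases b with
    | false => exact unit_cancel_cell hA ham hlt hs h2
    | true =>
      exact unit_cancel_cell hA ham hlt hs (unit_cancel_cell hA ham hlt (Ag_unit hA hs) h2)

theorem Ag_pigeon {m h} (hA : Adm m h) (g : ℕ → St) : ∃ a b, a < b ∧ Ag m h (g a) (g b) := by
  let F : ℕ → (Fin m → Bool) × ((i : Fin m) → Fin (h i) → Sym) :=
    fun n => (fun i => (g n).1 i, fun i j => (g n).2 i j)
  obtain ⟨a, b, hne, heq⟩ := Finite.exists_ne_map_eq_of_infinite F
  have key : ∀ a b, F a = F b → Ag m h (g a) (g b) := by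
    intro a b hab
    simp only [F, Prod.mk.injEq] at hab
    refine ⟨fun i hi => congrFun hab.1 ⟨i, hi⟩, fun i j hj => ?_⟩
    have hi := hA.pos i (by omega)
    exact congrFun (congrFun hab.2 ⟨i, hi⟩) ⟨j, hj⟩
  rcases lt_or_gt_of_ne hne with h1 | h1
  · exact ⟨a, b, h1, key _ _ heq⟩
  · exact ⟨b, a, h1, key _ _ heq.symm⟩

end Pool.Agent.H52Upg
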