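import Mathlib
import Pool.Agent.H52Upg.Win

namespace Pool.Agent.H52Upg

open Finset

/-- the control row, started from the zero row; the first cell rotates. -/
def y : ℕ → ℕ → Sym
  | 0, _ => 0
  | t + 1, 0 => y t 0 + 1
  | t + 1, a + 1 => if y t a = 1 then y t (a + 1) + 2 else - y t (a + 1)

theorem y_succ (t a : ℕ) :
    y (t + 1) (a + 1) = if y t a = 1 then y t (a + 1) + 2 else - y t (a + 1) := rfl

theorem y_zero (t : ℕ) : y t 0 = (t : Sym) := by
  induction t with
  | zero => simp [y]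
  | succ t ih => simp [y, ih]

structure Lvl (a N : ℕ) (σ : Sym) : Prop where
  odd : N % 2 = 1
  sg : σ = 1 ∨ σ = -1
  per : ∀ b ≤ a, ∀ t, y (t + N) b = y t b
  par : ∀ t < N, y t a = 1 → (-1) ^ t = σ
  cnt : (∑ t ∈ range N, if y t a = 1 then 1 else 0) % 2 = 1
  surj : ∀ v : ℕ → Sym, ∃ t < N, ∀ b ≤ a, y t b = v b

theorem lvl_zero : Lvl 0 5 (-1) where
  odd := rfl
  sg := Or.inr rfl
  per := by
    intro b hb t
    obtain rfl : b = 0 := by omega
    rw [y_zero, y_zero]
    push_cast
    have : (5 : Sym) = 0 := rfl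
    rw [this, add_zero]
  par := by
    intro t ht h
    rw [y_zero] at h
    interval_cases t <;> revert h <;> decide
  cnt := by
    simp only [y_zero]
    decide
  surj := by
    intro v
    refine ⟨(v 0).val, ZMod.val_lt _, ?_⟩
    intro b hb
    obtain rfl : b = 0 := by omega
    rw [y_zero, ZMod.natCast_val, ZMod.cast_id', id]

theorem traj {h : ℕ → Prop} [DecidablePred h] {N : ℕ} {σ : Sym} (sg : σ = 1 ∨ σ = -1)
    (par : ∀ t < N, h t → (-1) ^ t = σ) {g : ℕ → Sym}
    (hg : ∀ t < N, g (t + 1) = if h t then g t + 2 else - g t) :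
    ∀ t ≤ N, g t = (-1) ^ (t + (∑ s ∈ range t, if h s then 1 else 0) % 2) *
      (g 0 + 2 * σ * (((∑ s ∈ range t, if h s then 1 else 0) % 2 : ℕ) : Sym)) := by
  intro t
  induction t with
  | zero => intro _; simp
  | succ t ih =>
    intro ht
    have ih := ih (by omega)
    rw [hg t (by omega), Finset.sum_range_succ]
    generalize hc : (∑ s ∈ range t, if h s then 1 else 0) = c at ih ⊢
    by_cases hh : h t
    · have hp := par t (by omega) hh
      simp only [hh, if_true]
      rw [ih]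
      rcases Nat.mod_two_eq_zero_or_one c with h0 | h0
      · have h1 : (c + 1) % 2 = 1 := by omega
        rw [h0, h1, pow_add, pow_add, pow_add, hp]
        rcases sg with rfl | rfl
        · push_cast; ring
        · push_cast; ring
      · have h1 : (c + 1) % 2 = 0 := by omega
        rw [h0, h1, add_zero, pow_add, hp]
        rcases sg with rfl | rfl
        · push_cast; ring
        · push_cast; ring
    · simp only [hh, if_false, add_zero]
      rw [ih]
      ring

theorem neg_one_pow_cases (t : ℕ) : ((-1 : Sym) ^ t = 1) ∨ ((-1 : Sym) ^ t = -1) :=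
  neg_one_pow_eq_or Sym t

theorem lvl_formula {a N : ℕ} {σ : Sym} (H : Lvl a N σ) : ∀ j : ℕ, ∀ τ ≤ N,
    y (j * N + τ) (a + 1) = (-1) ^ (τ + (∑ s ∈ range τ, if y s a = 1 then 1 else 0) % 2) *
      (2 * σ * j + 2 * σ * (((∑ s ∈ range τ, if y s a = 1 then 1 else 0) % 2 : ℕ) : Sym)) := by
  have hper : ∀ j t, y (j * N + t) a = y t a := by
    intro j
    induction j with
    | zero => intro t; simp
    | succ j ih =>
      intro t
      have : (j + 1) * N + t = (j * N + t) + N := by ring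
      rw [this, H.per a le_rfl, ih]
  have step : ∀ j : ℕ, y (j * N) (a + 1) = 2 * σ * j → ∀ τ ≤ N,
    y (j * N + τ) (a + 1) = (-1) ^ (τ + (∑ s ∈ range τ, if y s a = 1 then 1 else 0) % 2) *
      (2 * σ * j + 2 * σ * (((∑ s ∈ range τ, if y s a = 1 then 1 else 0) % 2 : ℕ) : Sym)) := by
    intro j hj τ hτ
    have := traj (h := fun t => y t a = 1) (N := N) H.sg H.par
      (g := fun t => y (j * N + t) (a + 1)) ?_ τ hτ
    · simpa [hj] using this
    · intro t _
      have e : j * N + (t + 1) = (j * N + t) + 1 := by ring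
      simp only [e, y_succ, hper]
  have base : ∀ j : ℕ, y (j * N) (a + 1) = 2 * σ * j := by
    intro j
    induction j with
    | zero => simp [y]
    | succ j ih =>
      have := step j ih N le_rfl
      have e : (j + 1) * N = j * N + N := by ring
      rw [e, this, H.cnt]
      have hN : (N + 1) % 2 = 0 := by have := H.odd; omega
      have : (-1 : Sym) ^ (N + 1) = 1 := by
        rw [Even.neg_one_pow]; exact Nat.even_iff.mpr hN
      rw [this]; push_cast; ring
  exact fun j => step j (base j)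

theorem fin_par : ∀ ε σ : Sym, (ε = 1 ∨ ε = -1) → (σ = 1 ∨ σ = -1) → ∀ c : Fin 2, ∀ j : Fin 5,
    ε * (-1) ^ (c : ℕ) * (2 * σ * ((j : ℕ) : Sym) + 2 * σ * (((c : ℕ)) : Sym)) = 1 →
    (-1) ^ (j : ℕ) * ε = - σ := by decide

theorem fin_cnt : ∀ ε σ : Sym, (ε = 1 ∨ ε = -1) → (σ = 1 ∨ σ = -1) → ∀ c : Fin 2,
    (∑ j ∈ range 5, if ε * (-1) ^ (c : ℕ) * (2 * σ * ((j : ℕ) : Sym) + 2 * σ * (((c : ℕ)) : Sym)) = 1
      then 1 else 0) = 1 := by decide

theorem fin_surj : ∀ ε σ : Sym, (ε = 1 ∨ ε = -1) → (σ = 1 ∨ σ = -1) → ∀ c : Fin 2, ∀ v : Sym,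
    ∃ j : Fin 5, ε * (-1) ^ (c : ℕ) * (2 * σ * ((j : ℕ) : Sym) + 2 * σ * (((c : ℕ)) : Sym)) = v := by
  decide

theorem sum_mul_range (N : ℕ) (f : ℕ → ℕ) (m : ℕ) :
    ∑ t ∈ range (m * N), f t = ∑ τ ∈ range N, ∑ j ∈ range m, f (j * N + τ) := by
  induction m with
  | zero => simp
  | succ m ih =>
    have : (m + 1) * N = m * N + N := by ring
    rw [this, Finset.sum_range_add, ih, ← Finset.sum_add_distrib]
    refine Finset.sum_congr rfl fun τ _ => ?_
    rw [Finset.sum_range_succ]

theorem lvl_succ {a N : ℕ} {σ : Sym} (H : Lvl a N σ) : Lvl (a + 1) (5 * N) (-σ) := by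
  have F := lvl_formula H
  have hNpos : 0 < N := by have := H.odd; omega
  have hper : ∀ b ≤ a, ∀ j t, y (j * N + t) b = y t b := by
    intro b hb j
    induction j with
    | zero => intro t; simp
    | succ j ih =>
      intro t
      have : (j + 1) * N + t = (j * N + t) + N := by ring
      rw [this, H.per b hb, ih]
  -- uniform notation
  let C : ℕ → ℕ := fun τ => (∑ s ∈ range τ, if y s a = 1 then 1 else 0) % 2
  have hC : ∀ τ, C τ < 2 := fun τ => Nat.mod_lt _ (by norm_num)
  have F' : ∀ j : ℕ, ∀ τ ≤ N, y (j * N + τ) (a + 1) =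
      (-1) ^ τ * (-1) ^ (C τ) * (2 * σ * j + 2 * σ * ((C τ : ℕ) : Sym)) := by
    intro j τ hτ
    rw [F j τ hτ, pow_add]
  refine ⟨?_, ?_, ?_, ?_, ?_, ?_⟩
  · have := H.odd; omega
  · rcases H.sg with h | h
    · right; rw [h]
    · left; rw [h]; rfl
  · intro b hb t
    rcases Nat.le_succ_iff.mp hb with h | h
    · have : t + 5 * N = 5 * N + t := by ring
      rw [this, hper b h]
    · subst h
      have ht : t = (t / N) * N + t % N := by rw [mul_comm]; exact (Nat.div_add_mod t N).symm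
      have ht2 : t + 5 * N = (t / N + 5) * N + t % N := by
        rw [Nat.add_mul]; omega
      have hlt : t % N ≤ N := (Nat.mod_lt _ hNpos).le
      rw [ht2, F' _ _ hlt]
      conv_rhs => rw [ht]
      rw [F' _ _ hlt]
      push_cast
      have h5 : (5 : Sym) = 0 := rfl
      rw [h5]; ring
  · intro t ht h
    have hd : t = (t / N) * N + t % N := by rw [mul_comm]; exact (Nat.div_add_mod t N).symm
    have hlt : t % N ≤ N := (Nat.mod_lt _ hNpos).le
    have hj : t / N < 5 := by
      rw [Nat.div_lt_iff_lt_mul hNpos]; exact ht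
    rw [hd, F' _ _ hlt] at h
    have := fin_par _ σ (neg_one_pow_cases (t % N)) H.sg ⟨C (t % N), hC _⟩ ⟨t / N, hj⟩ h
    rw [hd, pow_add, pow_mul']
    have hNo : (-1 : Sym) ^ N = -1 := by
      rw [Odd.neg_one_pow]; exact Nat.odd_iff.mpr H.odd
    rw [hNo]
    exact this
  · rw [sum_mul_range]
    have : ∀ τ ∈ range N, (∑ j ∈ range 5, if y (j * N + τ) (a + 1) = 1 then 1 else 0) = 1 := by
      intro τ hτ
      have hlt : τ ≤ N := (Finset.mem_range.mp hτ).le
      have := fin_cnt _ σ (neg_one_pow_cases τ) H.sg ⟨C τ, hC _⟩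
      simp only [F' _ τ hlt]
      exact this
    rw [Finset.sum_congr rfl this]
    simp only [Finset.sum_const, Finset.card_range, smul_eq_mul, mul_one]
    exact H.odd
  · intro v
    obtain ⟨τ, hτ, hv⟩ := H.surj v
    obtain ⟨j, hj⟩ := fin_surj _ σ (neg_one_pow_cases τ) H.sg ⟨C τ, hC _⟩ (v (a + 1))
    refine ⟨(j : ℕ) * N + τ, ?_, ?_⟩
    · have := j.2
      nlinarith
    · intro b hb
      rcases Nat.le_succ_iff.mp hb with h | h
      · rw [hper b h]; exact hv b h
      · subst h
        rw [F' _ _ hτ.le]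
        exact hj

theorem lvl_all (a : ℕ) : ∃ N σ, Lvl a N σ := by
  induction a with
  | zero => exact ⟨5, -1, lvl_zero⟩
  | succ a ih =>
    obtain ⟨N, σ, h⟩ := ih
    exact ⟨5 * N, -σ, lvl_succ h⟩

/-- every word appears as the beginning of the control row. -/
theorem odometer (L : ℕ) (v : ℕ → Sym) : ∃ t, ∀ b, b < L → y t b = v b := by
  obtain ⟨N, σ, h⟩ := lvl_all L
  obtain ⟨t, _, ht⟩ := h.surj v
  exact ⟨t, fun b hb => ht b hb.le⟩

end Pool.Agent.H52Upg
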