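import Mathlib
import Pool.Agent.H52Upg.Win

namespace Pool.Agent.H52Upg

theorem act_replicate (k w) (n : ℕ) : ∀ s, act k w (List.replicate n false) s = (unit k w false)^[n] s := by
  induction n with
  | zero => intro s; rfl
  | succ n ih =>
    intro s
    rw [List.replicate_succ, act_cons, ih, Function.iterate_succ_apply]
    rfl

theorem shl_false {X : ℕ → Bool} {a : ℕ} (hX : ∀ i, i < a → X i = false) :
    ∀ i, i ≤ a → shl false X i = false := by
  intro i hi
  cases i with
  | zero => rfl
  | succ i => exact hX i (by omega)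

theorem loop1 (k w) {a : ℕ} {s : St} (h0 : ∀ i, i < a → s.1 i = false) (h1 : s.1 a = true) :
    (∀ i, i ≤ a → (unit k w false s).1 i = s.1 i) ∧
    (unit k w false s).1 (a + 1) = !(s.1 (a + 1)) ∧
    (∀ i, i < a → (unit k w false s).2 i 0 = s.2 i 0) ∧
    (unit k w false s).2 a 0 = s.2 a 0 + 1 := by
  refine ⟨?_, ?_, ?_, ?_⟩
  · intro i hi
    simp only [unit]
    rw [shl_false h0 i hi]
    simp
  · simp only [unit, shl]
    rw [h1]; simp
  · intro i hi
    have e : ro false s.1 i = false := by unfold ro; rw [h0 i hi]; simp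
    simp [unit, rstep, e]
  · have e : ro false s.1 a = true := by unfold ro; rw [h1, shl_false h0 a le_rfl]; simp
    simp [unit, rstep, e]

theorem loop1_iter (k w) {a : ℕ} {s : St} (h0 : ∀ i, i < a → s.1 i = false) (h1 : s.1 a = true)
    (n : ℕ) :
    (∀ i, i ≤ a → ((unit k w false)^[n] s).1 i = s.1 i) ∧
    ((unit k w false)^[n] s).1 (a + 1) = xor (s.1 (a + 1)) (decide (n % 2 = 1)) ∧
    (∀ i, i < a → ((unit k w false)^[n] s).2 i 0 = s.2 i 0) ∧
    ((unit k w false)^[n] s).2 a 0 = s.2 a 0 + n := by
  induction n with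
  | zero => simp
  | succ n ih =>
    rw [Function.iterate_succ_apply']
    obtain ⟨i1, i2, i3, i4⟩ := ih
    obtain ⟨j1, j2, j3, j4⟩ := loop1 k w (s := (unit k w false)^[n] s)
      (fun i hi => (i1 i hi.le).trans (h0 i hi)) ((i1 a le_rfl).trans h1)
    refine ⟨fun i hi => (j1 i hi).trans (i1 i hi), ?_, fun i hi => (j3 i hi).trans (i3 i hi), ?_⟩
    · rw [j2, i2]
      rcases Nat.mod_two_eq_zero_or_one n with h | h
      · have : (n + 1) % 2 = 1 := by omega
        simp [h, this]
      · have : (n + 1) % 2 = 0 := by omega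
        simp [h, this]
    · rw [j4, i4]; push_cast; ring

/-- profile: one row on the first `a` columns -/
def ind (a i : ℕ) : ℕ := if i < a then 1 else 0

theorem ind_adm {m a : ℕ} (h : a ≤ m) : Adm m (ind a) where
  anti i := by unfold ind; split_ifs <;> omega
  pos i := by unfold ind; split_ifs <;> omega

theorem ind_update (a : ℕ) : Function.update (ind a) a (ind a a + 1) = ind (a + 1) := by
  funext i
  by_cases h : i = a
  · subst h; simp [ind]
  · simp only [Function.update, h, ind]
    have : i < a ↔ i < a + 1 := by omega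
    simp [this]

theorem stage1_bit (k w) (a : ℕ) (hT : ∀ s t, ∃ l, Ag a (ind a) (act k w l s) t) :
    ∀ s t, ∃ l, Ag (a + 1) (ind a) (act k w l s) t := by
  refine trans_ext (act k w) (act_nil k w) (act_app k w) (Ag a (ind a)) (Ag (a + 1) (ind a))
    (Ag_equiv _ _) (Ag_equiv _ _) (fun l s t h => Ag_act (ind_adm le_rfl) l s t h)
    (fun l s t h => Ag_act (ind_adm (by omega)) l s t h)
    (fun l s t h h' => act_cancel_bit (ind_adm le_rfl) l s t h h')
    (fun g => Ag_pigeon (ind_adm (by omega)) g) hT
    (fun i => decide (i + 1 = a), fun _ _ => 0) ?_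
  intro s t hs ht
  by_cases hst : s.1 a = t.1 a
  · refine ⟨[], ?_, ?_⟩
    · intro i hi
      rcases Nat.lt_succ_iff_lt_or_eq.mp hi with h | h
      · exact (hs.1 i h).trans (ht.1 i h).symm
      · subst h; exact hst
    · intro i j hj
      exact (hs.2 i j hj).trans (ht.2 i j hj).symm
  · have hst' : s.1 a = !(t.1 a) := by
      revert hst; cases s.1 a <;> cases t.1 a <;> simp
    cases a with
    | zero =>
      refine ⟨[true], ?_, ?_⟩
      · intro i hi
        have : i = 0 := by omega
        subst this
        show xor (xor (s.1 0) true) false = t.1 0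
        rw [hst']; simp
      · intro i j hj
        simp [ind] at hj
    | succ a =>
      have hs0 : ∀ i, i < a → s.1 i = false := by
        intro i hi
        rw [hs.1 i (by omega)]
        simp; omega
      have hs1 : s.1 a = true := by
        rw [hs.1 a (by omega)]; simp
      refine ⟨List.replicate 5 false, ?_⟩
      rw [act_replicate]
      obtain ⟨i1, i2, i3, i4⟩ := loop1_iter k w hs0 hs1 5
      refine ⟨?_, ?_⟩
      · intro i hi
        rcases Nat.lt_succ_iff_lt_or_eq.mp hi with h | h
        · rw [i1 i (by omega)]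
          exact (hs.1 i h).trans (ht.1 i h).symm
        · subst h
          rw [i2, hst']; simp
      · intro i j hj
        have hi : i < a + 1 ∧ j = 0 := by
          unfold ind at hj; split_ifs at hj <;> omega
        obtain ⟨hi, rfl⟩ := hi
        have e := (hs.2 i 0 hj).trans (ht.2 i 0 hj).symm
        rcases Nat.lt_succ_iff_lt_or_eq.mp hi with h | h
        · rw [i3 i h, e]
        · subst h
          rw [i4, e]
          have : ((5 : ℕ) : Sym) = 0 := rfl
          rw [this, add_zero]

theorem stage1_cell (k w) (a : ℕ) (hT : ∀ s t, ∃ l, Ag (a + 1) (ind a) (act k w l s) t) :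
    ∀ s t, ∃ l, Ag (a + 1) (ind (a + 1)) (act k w l s) t := by
  rw [← ind_update]
  refine trans_ext (act k w) (act_nil k w) (act_app k w) (Ag (a + 1) (ind a))
    (Ag (a + 1) (Function.update (ind a) a (ind a a + 1)))
    (Ag_equiv _ _) (Ag_equiv _ _) (fun l s t h => Ag_act (ind_adm (by omega)) l s t h)
    (fun l s t h => Ag_act (by rw [ind_update]; exact ind_adm (by omega)) l s t h)
    (fun l s t h h' => act_cancel_cell (ind_adm (by omega)) (by omega)
      (by rintro a' rfl; simp [ind]) l s t h h')
    (fun g => Ag_pigeon (by rw [ind_update]; exact ind_adm (by omega)) g) hT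
    (fun i => decide (i = a), fun _ _ => 0) ?_
  intro s t hs ht
  have hs0 : ∀ i, i < a → s.1 i = false := by
    intro i hi
    rw [hs.1 i (by omega)]
    simp; omega
  have hs1 : s.1 a = true := by
    rw [hs.1 a (by omega)]; simp
  refine ⟨List.replicate (t.2 a 0 - s.2 a 0).val false, ?_⟩
  rw [act_replicate]
  obtain ⟨i1, i2, i3, i4⟩ := loop1_iter k w hs0 hs1 (t.2 a 0 - s.2 a 0).val
  refine ⟨?_, ?_⟩
  · intro i hi
    rw [i1 i (by omega)]
    exact (hs.1 i hi).trans (ht.1 i hi).symm
  · rw [AgR_update]
    refine ⟨?_, ?_⟩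
    · intro i j hj
      have hi : i < a ∧ j = 0 := by
        unfold ind at hj; split_ifs at hj <;> omega
      obtain ⟨hi, rfl⟩ := hi
      rw [i3 i hi]
      exact (hs.2 i 0 hj).trans (ht.2 i 0 hj).symm
    · have : ind a a = 0 := by simp [ind]
      rw [this, i4, ZMod.natCast_val, ZMod.cast_id', id]
      ring

theorem stage1 (k w) (a : ℕ) : ∀ s t, ∃ l, Ag a (ind a) (act k w l s) t := by
  induction a with
  | zero =>
    intro s t
    refine ⟨[], fun i hi => absurd hi (by omega), fun i j hj => ?_⟩
    simp [ind] at hj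
  | succ a ih => exact stage1_cell k w a (stage1_bit k w a ih)

/-- profile: `j+1` rows on the first `a` columns, `j` rows on the other columns `< L` -/
def prof (L j a i : ℕ) : ℕ := if i < a then j + 1 else if i < L then j else 0

theorem prof_adm {L j a : ℕ} (h : a ≤ L) : Adm L (prof L j a) where
  anti i := by unfold prof; split_ifs <;> omega
  pos i := by unfold prof; split_ifs <;> omega

theorem prof_update {L j a : ℕ} (h : a < L) :
    Function.update (prof L j a) a (prof L j a a + 1) = prof L j (a + 1) := by
  funext i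
  by_cases hi : i = a
  · subst hi; simp [prof, h]
  · simp only [Function.update, hi, prof]
    have : i < a ↔ i < a + 1 := by omega
    simp [this]

/-- the state used for the rotation of the cell `(a, j+1)` -/
def cst (a j : ℕ) : St := (fun _ => false, fun i j' => if i = a ∧ j' = j then 1 else 4)

theorem loop2_row {k L a j : ℕ} {rr : ℕ → Bool} {r : ℕ → ℕ → Sym} (w : Sym) (haL : a < L) (hjk : j < k)
    (hro : ∀ i, i < L → rr i = false) (hr : AgR (prof L (j + 1) a) r (cst a j).2) :
    AgR (prof L (j + 1) a) (rstep k w rr r) (cst a j).2 ∧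
    rstep k w rr r a (j + 1) = r a (j + 1) + 1 := by
  constructor
  · intro i j' hj'
    have hiL : i < L := by
      unfold prof at hj'; split_ifs at hj' <;> omega
    cases j' with
    | zero =>
      simp only [rstep]
      rw [hro i hiL, hr i 0 hj']
      simp
    | succ j' =>
      simp only [rstep]
      -- the cell below is `4`
      have hb : r i j' = 4 := by
        rw [hr i j' (by omega)]
        simp only [cst]
        rw [if_neg]
        rintro ⟨rfl, rfl⟩
        unfold prof at hj'
        simp at hj'
        split_ifs at hj'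
        omega
      rw [hb, Phi_four, hr i (j' + 1) hj']
  · simp only [rstep]
    have hb : r a j = 1 := by
      rw [hr a j (by unfold prof; split_ifs <;> omega)]
      simp [cst]
    have hd : lft k w r a j = 4 := by
      cases a with
      | zero => simp [lft, wall, hjk]
      | succ a =>
        simp only [lft]
        rw [hr a j (by unfold prof; split_ifs <;> omega)]
        simp [cst]
    rw [hb, hd, Phi_four_one]

theorem loop2 {k L a j : ℕ} {s : St} (w : Sym) (haL : a < L) (hjk : j < k)
    (hs : Ag L (prof L (j + 1) a) s (cst a j)) :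
    Ag L (prof L (j + 1) a) (unit k w false s) (cst a j) ∧
    (unit k w false s).2 a (j + 1) = s.2 a (j + 1) + 2 := by
  have hX : ∀ i, i < L → s.1 i = false := fun i hi => hs.1 i hi
  have hro : ∀ i, i < L → ro false s.1 i = false := by
    intro i hi
    unfold ro
    rw [hX i hi]; simp
  obtain ⟨h1, h2⟩ := loop2_row w haL hjk hro hs.2
  obtain ⟨h3, h4⟩ := loop2_row (rr := fun _ => false) w haL hjk (fun _ _ => rfl) h1
  refine ⟨⟨?_, h3⟩, ?_⟩
  · intro i hi
    show xor (s.1 i) (shl false s.1 i) = false
    rw [hX i hi, shl_false hX i hi.le]; rfl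
  · show rstep k w (fun _ => false) (rstep k w (ro false s.1) s.2) a (j + 1) = _
    rw [h4, h2]; ring

theorem loop2_iter {k L a j : ℕ} {s : St} (w : Sym) (haL : a < L) (hjk : j < k)
    (hs : Ag L (prof L (j + 1) a) s (cst a j)) (n : ℕ) :
    Ag L (prof L (j + 1) a) ((unit k w false)^[n] s) (cst a j) ∧
    ((unit k w false)^[n] s).2 a (j + 1) = s.2 a (j + 1) + 2 * n := by
  induction n with
  | zero => exact ⟨hs, by simp⟩
  | succ n ih =>
    rw [Function.iterate_succ_apply']
    obtain ⟨h1, h2⟩ := loop2 w haL hjk ih.1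
    refine ⟨h1, ?_⟩
    rw [h2, ih.2]; push_cast; ring

theorem stage2_cell (k w) (L a j : ℕ) (haL : a < L) (hjk : j < k)
    (hT : ∀ s t, ∃ l, Ag L (prof L (j + 1) a) (act k w l s) t) :
    ∀ s t, ∃ l, Ag L (prof L (j + 1) (a + 1)) (act k w l s) t := by
  rw [← prof_update haL]
  have hpa : prof L (j + 1) a a = j + 1 := by
    unfold prof; split_ifs <;> omega
  refine trans_ext (act k w) (act_nil k w) (act_app k w) (Ag L (prof L (j + 1) a))
    (Ag L (Function.update (prof L (j + 1) a) a (prof L (j + 1) a a + 1)))
    (Ag_equiv _ _) (Ag_equiv _ _) (fun l s t h => Ag_act (prof_adm haL.le) l s t h)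
    (fun l s t h => Ag_act (by rw [prof_update haL]; exact prof_adm haL) l s t h)
    (fun l s t h h' => act_cancel_cell (prof_adm haL.le) haL
      (by rintro a' rfl; unfold prof; split_ifs <;> omega) l s t h h')
    (fun g => Ag_pigeon (by rw [prof_update haL]; exact prof_adm haL) g) hT
    (cst a j) ?_
  intro s t hs ht
  refine ⟨List.replicate (3 * (t.2 a (j + 1) - s.2 a (j + 1)) : Sym).val false, ?_⟩
  rw [act_replicate]
  obtain ⟨h1, h2⟩ := loop2_iter w haL hjk hs (3 * (t.2 a (j + 1) - s.2 a (j + 1)) : Sym).val
  have h3 := (Ag_equiv L (prof L (j + 1) a)).trans h1 ((Ag_equiv L (prof L (j + 1) a)).symm ht)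
  refine ⟨h3.1, ?_⟩
  rw [AgR_update]
  refine ⟨h3.2, ?_⟩
  rw [hpa, h2, ZMod.natCast_val, ZMod.cast_id', id]
  have : (2 : Sym) * (3 * (t.2 a (j + 1) - s.2 a (j + 1))) = 6 * (t.2 a (j + 1) - s.2 a (j + 1)) := by ring
  rw [this]
  have h6 : (6 : Sym) = 1 := rfl
  rw [h6]; ring

theorem stage2 (k w) (L : ℕ) (j : ℕ) (hj : j ≤ k) :
    ∀ s t, ∃ l, Ag L (prof L j L) (act k w l s) t := by
  induction j with
  | zero =>
    have : prof L 0 L = ind L := by
      funext i; unfold prof ind; split_ifs <;> rfl
    rw [this]; exact stage1 k w L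
  | succ j ih =>
    have key : ∀ a, a ≤ L → ∀ s t, ∃ l, Ag L (prof L (j + 1) a) (act k w l s) t := by
      intro a
      induction a with
      | zero =>
        intro _
        have : prof L (j + 1) 0 = prof L j L := by
          funext i; unfold prof; split_ifs <;> first | rfl | omega
        rw [this]; exact ih (by omega)
      | succ a iha =>
        intro ha
        exact stage2_cell k w L a j (by omega) (by omega) (iha (by omega))
    exact key L le_rfl

/-- Transitivity of the window: every state of `L` columns and rows `0..k` can be reached. -/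
theorem window_transitive (k w) (L : ℕ) (s t : St) :
    ∃ l, (∀ i, i < L → (act k w l s).1 i = t.1 i) ∧
      ∀ i j, i < L → j ≤ k → (act k w l s).2 i j = t.2 i j := by
  obtain ⟨l, h1, h2⟩ := stage2 k w L k le_rfl s t
  refine ⟨l, h1, fun i j hi hj => h2 i j ?_⟩
  unfold prof; simp [hi]; omega

end Pool.Agent.H52Upg
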