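import Mathlib
import Pool.Agent.H52Upg.Trans
import Pool.Agent.H52Upg.Odo

namespace Pool.Agent.H52Upg

/-- space-time history of the control row (row `0`) and the rows above it, columns `0,1,...`;
column `0` is not constrained. -/
structure IsHist (U : ℕ → ℕ → ℕ → Sym) : Prop where
  ctl : ∀ t a, U (t + 1) (a + 1) 0 = if U t a 0 = 1 then U t (a + 1) 0 + 2 else - U t (a + 1) 0
  row : ∀ t a j, U (t + 1) (a + 1) (j + 1) =
    Phi (U t a (j + 1)) (U t a j) (U t (a + 1) j) (U t (a + 1) (j + 1))

/-- symbol of a bit at even times -/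
def sy (b : Bool) : Sym := if b = true then 1 else 2
/-- symbol of a bit at odd times -/
def osy (b : Bool) : Sym := if b = true then 4 else 3

theorem sy_step (x b : Bool) : (if sy x = 1 then sy b + 2 else - sy b) = osy (xor b x) := by
  revert x b; decide

theorem osy_step (x b : Bool) : (if osy x = 1 then osy b + 2 else - osy b) = sy b := by
  revert x b; decide

theorem Phi_sy (l z : Sym) (x b : Bool) :
    Phi l (sy x) (sy b) z = z + (if (!x && b) = true then 1 else 0) := by
  revert l z x b; decide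

theorem Phi_osy (l z : Sym) (x b : Bool) : Phi l (osy x) (osy b) z = z := by
  revert l z x b; decide

def bitn (b : ℕ → Bool) : ℕ → ℕ → Bool
  | 0, a => b a
  | n + 1, 0 => bitn b n 0
  | n + 1, a + 1 => xor (bitn b n (a + 1)) (bitn b n a)

theorem regime {U : ℕ → ℕ → ℕ → Sym} (hU : IsHist U) {W : ℕ} {b : ℕ → Bool}
    (h0 : ∀ a, a < W → U 0 a 0 = sy (b a)) (n : ℕ) :
    (∀ a, 2 * n ≤ a → a < W → U (2 * n) a 0 = sy (bitn b n a)) ∧
    (∀ a, 2 * n + 1 ≤ a → a < W → U (2 * n + 1) a 0 = osy (bitn b (n + 1) a)) := by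
  have key : ∀ n, (∀ a, 2 * n ≤ a → a < W → U (2 * n) a 0 = sy (bitn b n a)) →
      (∀ a, 2 * n + 1 ≤ a → a < W → U (2 * n + 1) a 0 = osy (bitn b (n + 1) a)) := by
    intro n h a ha haW
    obtain ⟨a, rfl⟩ : ∃ a', a = a' + 1 := ⟨a - 1, by omega⟩
    rw [hU.ctl, h a (by omega) (by omega), h (a + 1) (by omega) haW, sy_step]
    rfl
  induction n with
  | zero =>
    have e : ∀ a, 2 * 0 ≤ a → a < W → U (2 * 0) a 0 = sy (bitn b 0 a) := fun a _ haW => h0 a haW
    exact ⟨e, key 0 e⟩
  | succ n ih =>
    have e : ∀ a, 2 * (n + 1) ≤ a → a < W → U (2 * (n + 1)) a 0 = sy (bitn b (n + 1) a) := by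
      intro a ha haW
      obtain ⟨a, rfl⟩ : ∃ a', a = a' + 1 := ⟨a - 1, by omega⟩
      have : 2 * (n + 1) = 2 * n + 1 + 1 := by ring
      rw [this, hU.ctl, ih.2 a (by omega) (by omega), ih.2 (a + 1) (by omega) haW, osy_step]
    exact ⟨e, key _ e⟩

/-- iterated differences of a stream -/
def dl (e : ℕ → Bool) : ℕ → ℕ → Bool
  | 0, n => e n
  | i + 1, n => xor (dl e i n) (dl e i (n + 1))

theorem bitn_dl {b e : ℕ → Bool} {M : ℕ} (hb : ∀ a, a ≤ M → b a = dl e (M - a) 0) (n : ℕ) :
    ∀ a, n ≤ a → a ≤ M → bitn b n a = dl e (M - a) n := by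
  induction n with
  | zero => intro a _ ha; exact hb a ha
  | succ n ih =>
    intro a hna ha
    obtain ⟨a, rfl⟩ : ∃ a', a = a' + 1 := ⟨a - 1, by omega⟩
    simp only [bitn]
    rw [ih (a + 1) (by omega) ha, ih a (by omega) (by omega)]
    have : M - a = (M - (a + 1)) + 1 := by omega
    rw [this]
    simp only [dl]
    cases dl e (M - (a + 1)) n <;> cases dl e (M - (a + 1)) (n + 1) <;> rfl

theorem wall_frozen {U : ℕ → ℕ → ℕ → Sym} (hU : IsHist U) {M k : ℕ} {w : Sym} {b e : ℕ → Bool}
    (he : ∀ n, e n = true → e (n + 1) = false)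
    (h0 : ∀ a, a ≤ M + 1 → U 0 a 0 = sy (b a))
    (hb : ∀ a, a ≤ M + 1 → b a = dl e (M + 1 - a) 0)
    (hw : ∀ j, j ≤ k → U 0 (M + 1) (j + 1) = wall k w j) :
    ∀ t, t ≤ M + 1 → ∀ j, j ≤ k → U t (M + 1) (j + 1) = wall k w j := by
  have R := fun n => regime hU (W := M + 2) (fun a ha => h0 a (by omega)) n
  intro t
  induction t with
  | zero => intro _ j hj; exact hw j hj
  | succ t ih =>
    intro ht j hj
    have ih := ih (by omega)
    rw [hU.row, ih j hj]
    cases j with
    | zero =>
      rcases Nat.even_or_odd' t with ⟨n, rfl | rfl⟩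
      · rw [(R n).1 M (by omega) (by omega), (R n).1 (M + 1) (by omega) (by omega), Phi_sy,
          bitn_dl hb n M (by omega) (by omega), bitn_dl hb n (M + 1) (by omega) (by omega)]
        have e1 : M + 1 - M = 0 + 1 := by omega
        rw [e1, Nat.sub_self]
        have key : (!(dl e (0 + 1) n) && dl e 0 n) = false := by
          have := he n
          simp only [dl]
          generalize e n = p at *
          generalize e (n + 1) = q at *
          revert this
          cases p <;> cases q <;> simp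
        rw [if_neg (by rw [key]; simp), add_zero]
      · rw [(R n).2 M (by omega) (by omega), (R n).2 (M + 1) (by omega) (by omega), Phi_osy]
    | succ j =>
      have : U t (M + 1) (j + 1) = 4 := by
        rw [ih j (by omega)]; unfold wall; rw [if_pos (by omega)]
      rw [this, Phi_four]

/-- run the window with a stream -/
def run (k : ℕ) (w : Sym) (e : ℕ → Bool) (s : St) : ℕ → St
  | 0 => s
  | n + 1 => unit k w (e n) (run k w e s n)

theorem rows_step {U : ℕ → ℕ → ℕ → Sym} (hU : IsHist U) {M L k t : ℕ} {w : Sym}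
    {rr : ℕ → Bool} {r : ℕ → ℕ → Sym}
    (hw : ∀ j, j ≤ k → U t M (j + 1) = wall k w j)
    (hr : ∀ a j, a < L → j ≤ k → U t (M + 1 + a) (j + 1) = r a j)
    (hc : ∀ a, a < L → ∀ l z, Phi l (U t (M + a) 0) (U t (M + a + 1) 0) z =
      z + (if rr a = true then 1 else 0)) :
    ∀ a j, a < L → j ≤ k → U (t + 1) (M + 1 + a) (j + 1) = rstep k w rr r a j := by
  intro a j ha hj
  have e1 : M + 1 + a = M + a + 1 := by ring
  have hl : ∀ j, j ≤ k → U t (M + a) (j + 1) = lft k w r a j := by
    intro j hj
    cases a with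
    | zero => exact hw j hj
    | succ a =>
      have : M + (a + 1) = M + 1 + a := by ring
      rw [this]; exact hr a j (by omega) hj
  have hz := hr a j ha hj
  rw [e1] at hz ⊢
  rw [hU.row, hz]
  cases j with
  | zero => rw [hc a ha]; rfl
  | succ j =>
    have hb := hr a j ha (by omega)
    rw [e1] at hb
    rw [hl (j + 1) hj, hl j (by omega), hb]
    rfl

theorem sim {U : ℕ → ℕ → ℕ → Sym} (hU : IsHist U) {M L k : ℕ} {w : Sym} {b e : ℕ → Bool} {s : St}
    (he : ∀ n, e n = true → e (n + 1) = false)
    (h0 : ∀ a, a < M + 2 + L → U 0 a 0 = sy (b a))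
    (hb : ∀ a, a ≤ M + 1 → b a = dl e (M + 1 - a) 0)
    (hbs : ∀ a, a < L → b (M + 2 + a) = s.1 a)
    (hw : ∀ j, j ≤ k → U 0 (M + 1) (j + 1) = wall k w j)
    (hs : ∀ a j, a < L → j ≤ k → U 0 (M + 2 + a) (j + 1) = s.2 a j) :
    ∀ n, 2 * n ≤ M + 1 →
      (∀ a, a < L → U (2 * n) (M + 2 + a) 0 = sy ((run k w e s n).1 a)) ∧
      (∀ a j, a < L → j ≤ k → U (2 * n) (M + 2 + a) (j + 1) = (run k w e s n).2 a j) := by
  have R := fun n => regime hU h0 n
  have hbit : ∀ n, n ≤ M + 1 → ∀ a, a < L → bitn b n (M + 2 + a) = (run k w e s n).1 a := by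
    intro n
    induction n with
    | zero => intro _ a ha; exact hbs a ha
    | succ n ih =>
      intro hn a ha
      have ih := ih (by omega)
      have e1 : M + 2 + a = M + 1 + a + 1 := by ring
      rw [e1]
      simp only [bitn]
      rw [← e1, ih a ha]
      show _ = xor _ _
      congr 1
      cases a with
      | zero =>
        simp only [shl, Nat.add_zero]
        rw [bitn_dl hb n (M + 1) (by omega) le_rfl, Nat.sub_self]
        rfl
      | succ a =>
        have : M + 1 + (a + 1) = M + 2 + a := by ring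
        rw [this]
        exact ih a (by omega)
  have hwall := wall_frozen hU he (fun a ha => h0 a (by omega)) hb hw
  -- bit of the left neighbour
  have hleft : ∀ n, n ≤ M + 1 → ∀ a, a < L →
      bitn b n (M + 1 + a) = shl (e n) (run k w e s n).1 a := by
    intro n hn a ha
    cases a with
    | zero =>
      simp only [shl, Nat.add_zero]
      rw [bitn_dl hb n (M + 1) (by omega) le_rfl, Nat.sub_self]
      rfl
    | succ a =>
      have : M + 1 + (a + 1) = M + 2 + a := by ring
      rw [this]
      exact hbit n hn a (by omega)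
  have hrows : ∀ n, 2 * n ≤ M + 1 →
      (∀ a j, a < L → j ≤ k → U (2 * n) (M + 1 + 1 + a) (j + 1) = (run k w e s n).2 a j) := by
    intro n
    induction n with
    | zero => intro _ a j ha hj; exact hs a j ha hj
    | succ n ih =>
      intro hn
      have ih := ih (by omega)
      have s1 := rows_step hU (M := M + 1) (L := L) (k := k) (t := 2 * n) (w := w)
        (rr := ro (e n) (run k w e s n).1) (r := (run k w e s n).2)
        (hwall (2 * n) (by omega)) ih ?_
      · have s2 := rows_step hU (M := M + 1) (L := L) (k := k) (t := 2 * n + 1) (w := w)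
          (rr := fun _ => false) (r := rstep k w (ro (e n) (run k w e s n).1) (run k w e s n).2)
          (hwall (2 * n + 1) (by omega)) s1 ?_
        · exact s2
        · intro a ha l z
          rw [(R n).2 (M + 1 + a) (by omega) (by omega), (R n).2 (M + 1 + a + 1) (by omega) (by omega),
            Phi_osy]
          simp
      · intro a ha l z
        rw [(R n).1 (M + 1 + a) (by omega) (by omega), (R n).1 (M + 1 + a + 1) (by omega) (by omega),
          Phi_sy, hleft n (by omega) a ha]
        have : M + 1 + a + 1 = M + 2 + a := by ring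
        rw [this, hbit n (by omega) a ha]
        rfl
  intro n hn
  refine ⟨?_, hrows n hn⟩
  intro a ha
  rw [(R n).1 (M + 2 + a) (by omega) (by omega), hbit n (by omega) a ha]

end Pool.Agent.H52Upg
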