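import Mathlib
import Pool.Agent.H52Upg.Sim

namespace Pool.Agent.H52Upg

/-- bit string of a word: `false` gives `0`, `true` gives `1,0`. -/
def bits : List Bool → List Bool
  | [] => []
  | false :: l => false :: bits l
  | true :: l => true :: false :: bits l

theorem bits_append (u v : List Bool) : bits (u ++ v) = bits u ++ bits v := by
  induction u with
  | nil => rfl
  | cons b u ih => cases b <;> simp [bits, ih]

def str (l : List Bool) (n : ℕ) : Bool := (bits l).getD n false

theorem str_nil (n : ℕ) : str [] n = false := by simp [str, bits]
theorem str_false_zero (l) : str (false :: l) 0 = false := rfl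
theorem str_false_succ (l) (n : ℕ) : str (false :: l) (n + 1) = str l n := rfl
theorem str_true_zero (l) : str (true :: l) 0 = true := rfl
theorem str_true_one (l) : str (true :: l) 1 = false := rfl
theorem str_true_succ (l) (n : ℕ) : str (true :: l) (n + 2) = str l n := rfl

theorem str_no_two (l : List Bool) : ∀ n, str l n = true → str l (n + 1) = false := by
  induction l with
  | nil => intro n h; simp [str_nil] at h
  | cons b l ih =>
    intro n h
    cases b with
    | false =>
      cases n with
      | zero => simp [str_false_zero] at h
      | succ n => rw [str_false_succ] at h ⊢; exact ih n h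
    | true =>
      match n with
      | 0 => exact str_true_one l
      | 1 => simp [str_true_one] at h
      | n + 2 =>
        rw [str_true_succ] at h
        show str (true :: l) (n + 1 + 2) = false
        rw [str_true_succ]; exact ih n h

theorem run_succ (k w) (e : ℕ → Bool) (s : St) (n : ℕ) :
    run k w e s (n + 1) = run k w (fun m => e (m + 1)) (unit k w (e 0) s) n := by
  induction n with
  | zero => rfl
  | succ n ih =>
    show unit k w (e (n + 1)) (run k w e s (n + 1)) = _
    rw [ih]; rfl

theorem run_str (k w) (u v : List Bool) : ∀ s : St,
    run k w (str (u ++ v)) s (bits u).length = act k w u s := by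
  induction u with
  | nil => intro s; rfl
  | cons b u ih =>
    intro s
    cases b with
    | false =>
      show run k w (str (false :: (u ++ v))) s ((bits u).length + 1) = act k w u (unit k w false s)
      rw [run_succ, ← ih]
      rfl
    | true =>
      show run k w (str (true :: (u ++ v))) s ((bits u).length + 1 + 1) =
        act k w u (unit k w false (unit k w true s))
      rw [run_succ, run_succ, ← ih]
      rfl

theorem hist_shift {G : ℕ → ℕ → ℕ → Sym} (hG : IsHist G) (t A : ℕ) :
    IsHist (fun τ a j => G (t + τ) (A + a) j) where
  ctl τ a := hG.ctl (t + τ) (A + a)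
  row τ a j := hG.row (t + τ) (A + a) j

theorem uni {G : ℕ → ℕ → ℕ → Sym} (hG : IsHist G) (hy : ∀ t a, G t a 0 = y t a) (k : ℕ) :
    ∀ (L : ℕ) (b : ℕ → Bool) (P : ℕ → ℕ → Sym), ∃ t A, ∀ a, a < L →
      G t (A + a) 0 = sy (b a) ∧ ∀ j, j < k → G t (A + a) (j + 1) = P a j := by
  induction k with
  | zero =>
    intro L b P
    obtain ⟨t, ht⟩ := odometer L (fun a => sy (b a))
    refine ⟨t, 0, fun a ha => ⟨?_, fun j hj => absurd hj (by omega)⟩⟩
    rw [hy, Nat.zero_add]; exact ht a ha
  | succ k ih =>
    intro L b P
    obtain ⟨ω, hω⟩ := traversal (ι := Sym × (Fin L → Sym)) (St := St) (fun i => act k i.1)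
      (fun i u v s => act_app k i.1 u v s)
      (fun i => (fun _ => false,
        fun a j => if j = k then (if h : a < L then i.2 ⟨a, h⟩ else 0) else 0))
      (fun _ s => (∀ a, a < L → s.1 a = b a) ∧ ∀ a j, a < L → j ≤ k → s.2 a j = P a j)
      (fun i s => window_transitive k i.1 L s (b, P))
    let M := 2 * (bits ω).length
    obtain ⟨t, A, hA⟩ := ih (M + 2 + L)
      (fun a => if a ≤ M + 1 then dl (str ω) (M + 1 - a) 0 else false)
      (fun a j => if a = M + 1 then 4 else 0)
    have hU := hist_shift hG t A
    obtain ⟨u, hu, ht1, ht2⟩ := hω (G t (A + (M + 1)) (k + 1),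
      fun a => G t (A + (M + 2 + a)) (k + 1))
    obtain ⟨v, rfl⟩ := hu
    have hlen : (bits u).length ≤ (bits (u ++ v)).length := by
      rw [bits_append, List.length_append]; omega
    have S := sim hU (M := M) (L := L) (k := k) (w := G t (A + (M + 1)) (k + 1))
      (b := fun a => if a ≤ M + 1 then dl (str (u ++ v)) (M + 1 - a) 0 else false)
      (e := str (u ++ v))
      (s := (fun _ => false,
        fun a j => if j = k then (if h : a < L then G t (A + (M + 2 + a)) (k + 1) else 0) else 0))
      (str_no_two _) ?_ ?_ ?_ ?_ ?_ (bits u).length (by omega)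
    · rw [run_str] at S
      refine ⟨t + 2 * (bits u).length, A + (M + 2), fun a ha => ⟨?_, fun j hj => ?_⟩⟩
      · have := S.1 a ha
        rw [Nat.add_assoc A]
        rw [this, ← ht1 a ha]
      · have := S.2 a j ha (by omega)
        rw [Nat.add_assoc A]
        rw [this, ← ht2 a j ha (by omega)]
    · intro a ha
      exact (hA a ha).1
    · intro a ha
      simp only [ha, if_true]
    · intro a ha
      have : ¬ (M + 2 + a ≤ M + 1) := by omega
      simp only [this, if_false]
    · intro j hj
      rcases Nat.lt_or_eq_of_le hj with h | h
      · have := (hA (M + 1) (by omega)).2 j h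
        simp only [if_true] at this
        simp only [wall, if_pos h, Nat.add_zero]
        exact this
      · subst h
        simp [wall]
    · intro a j ha hj
      rcases Nat.lt_or_eq_of_le hj with h | h
      · have := (hA (M + 2 + a) (by omega)).2 j h
        have h1 : ¬ (M + 2 + a = M + 1) := by omega
        have h2 : j ≠ k := by omega
        simp only [h1, if_false] at this
        simp only [h2, if_false, Nat.add_zero]
        exact this
      · subst h
        simp [ha]

end Pool.Agent.H52Upg
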